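import Pool.Agent.Helper10.CYC.Merge
import Pool.Agent.Helper73.SNC.Val

/-!
# Track C: the even case of the cyclic tables from T1 and E2 only

Paper proof: team store, `even42.md`.  The pieces are `ST_*`; each is proved in its own file and
uses the others only as hypotheses.
-/

set_option autoImplicit false

namespace Pool.Agent.Helper42.CYC

open Finset Polynomial Pool.Agent.Helper10.CYC Pool.Agent.Helper73.SNC
open IsLocalRing (ResidueField residue)

/-- `s` columns `Γ (1 + T X) X^(2j)`, then the columns `ψ X^(2j)`; the coefficient ring is `R[T]`. -/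
noncomputable def colT {R : Type} [CommRing R] (k s : ℕ) (Γ ψ : R[X]) : Fin k → R[X][X] :=
  fun j => if (j : ℕ) < s then Γ.map C * (1 + C X * X) * X ^ (2 * (j : ℕ))
    else ψ.map C * X ^ (2 * ((j : ℕ) - s))

/-- `s` columns `Γ X^(2j)`, then the columns `ψ X^(2j)`. -/
noncomputable def col0 {R : Type} [CommRing R] (k s : ℕ) (Γ ψ : R[X]) : Fin k → R[X] :=
  fun j => if (j : ℕ) < s then Γ * X ^ (2 * (j : ℕ)) else ψ * X ^ (2 * ((j : ℕ) - s))

/-- **C2** (E2): the relation with one special slot merged into the second block with weight one,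
written on the first block.  `H` is the inverse of the reversed polynomial. -/
def ST_E2 : Prop := ∀ (R : Type) [CommRing R] [CharP R 2] (k s jj : ℕ) (_ : 1 ≤ s)
  (_ : 2 ≤ jj) (_ : s + jj ≤ k) (f : R[X]) (_ : f.Monic) (_ : f.natDegree = k) (_ : IsUnit (f.coeff 0))
  (_ : ∀ z : Fin k, s ≤ (z : ℕ) → Rel f (s + jj) (u2 k s jj z)) (Γ ψ : R[X])
  (H : PowerSeries R) (_ : H * (f.reverse : PowerSeries R) = 1),
    PowerSeries.coeff (s + 1) (H * ((dd (f.map C) (colT k s Γ ψ) : R[X]) : PowerSeries R)) = 0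

open Classical in
/-- The multiplicities `p` with one root `ρ` removed. -/
noncomputable def pm {K : Type} (p : K → ℕ) (ρ v : K) : ℕ := p v - if v = ρ then 1 else 0

/-- First order data over a ring `R` with a map `red` to `K`: `f = S(X²) + α X g(X²)`, `α² = 0`,
`α` kills the kernel of `red`. -/
structure FO {R K : Type} [CommRing R] [CommRing K] (red : R →+* K) (α : R) (h : ℕ)
    (S g f : R[X]) : Prop where
  sq : α * α = 0
  kill : ∀ x, red x = 0 → α * x = 0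
  monic : S.Monic
  deg : S.natDegree = h
  degg : g.degree < (h : WithBot ℕ)
  eq : f = Polynomial.expand R 2 S + C α * X * Polynomial.expand R 2 g

/-- **C3**: sizes `(h-1, h+1)`, `ψ = 1`.  `y` lists the roots of `S` modulo `ker red`, and `g` is
`∑ e_m S/(z - y_m)` modulo `ker red`. -/
def ST_C3 : Prop := ∀ (R K : Type) [CommRing R] [CharP R 2] [CommRing K] [CharP K 2]
  (red : R →+* K) (α : R) (h : ℕ) (_ : 1 ≤ h) (S g f : R[X]) (_ : FO red α h S g f)
  (_ : Function.Surjective red) (y : Fin h → K) (_ : S.map red = ∏ i, (X - C (y i)))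
  (M : Finset (Fin h)) (e : Fin h → K)
  (_ : g.map red = ∑ m ∈ M, C (e m) * ∏ i ∈ univ.erase m, (X - C (y i)))
  (Γ0 Γ1 : R[X]),
    ∃ x : R, dd f (col0 (2 * h) (h - 1) (Polynomial.expand R 2 Γ0 + X * Polynomial.expand R 2 Γ1) 1) = α * x ∧
      red x = ∑ m ∈ M, e m * ∏ i ∈ univ.erase m, (Γ1.map red).eval (y i)

/-- **C4**: sizes `(h, h)`, `ψ = X`, odd part of `Γ` a polynomial in `X⁴`. -/
def ST_C4 : Prop := ∀ (R K : Type) [CommRing R] [CharP R 2] [CommRing K] [CharP K 2]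
  (red : R →+* K) (α : R) (h : ℕ) (S g f : R[X]) (_ : FO red α h S g f) (U W : R[X]),
    dd f (col0 (2 * h) h (Polynomial.expand R 2 U + X * Polynomial.expand R 2 (Polynomial.expand R 2 W)) X)
      = dd S (fun j : Fin h => U * X ^ (j : ℕ))

/-- **C4'**: the norm form. -/
def ST_NORM : Prop := ∀ (K : Type) [CommRing K] (h : ℕ) (y : Fin h → K) (U : K[X]),
    dd (∏ i, (X - C (y i))) (fun j : Fin h => U * X ^ (j : ℕ)) = ∏ i, U.eval (y i)

/-- The end: data `V` (the roots of the reduction of `f`), `p` (half the multiplicities), `Mi`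
(the roots of least order), `H` the inverse of the reversed reduction of `f`, as a series in
`w = T²`. -/
def ST_END : Prop := ∀ (K : Type) [Field K] [CharP K 2] (V : Finset K) (p : K → ℕ)
  (Mi : Finset K) (_ : (0 : K) ∉ V) (_ : ∀ v ∈ V, 1 ≤ p v) (_ : Mi ⊆ V) (_ : Mi.Nonempty)
  (H : PowerSeries K)
  (_ : H * ∏ v ∈ V, (1 - PowerSeries.C (v ^ 2) * PowerSeries.X) ^ (p v) = 1)
  (_ : ∀ ρ ∈ Mi, ∀ j : K → ℕ, (∀ v ∈ V, Odd ((pm p ρ v).choose (j v))) →
    ∀ y, ∑ v ∈ V, j v + 1 = 2 * y → PowerSeries.coeff y H = 0)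
  (_ : ∀ j : K → ℕ, (∀ v ∈ V, Odd ((p v).choose (j v))) →
    ∀ y, ∑ v ∈ V, j v = 2 * y →
      ∑ x ∈ antidiagonal y, PowerSeries.coeff x.1 H * ∑ ρ ∈ Mi, ρ ^ (2 * x.2 + 1) = 0),
    False

/-- **C1** (arithmetic): the first order ring of a set `B` of even size with square reduction
which is not `n/2`-periodic. -/
def ST_ARITH : Prop := ∀ (W : ValuationSubring ℂ) (_ : ¬ IsUnit (2 : W)) (n : ℕ) [NeZero n]
  (_ : Even n) (h : ℕ) (b : Fin (2 * h) → ZMod n) (_ : Function.Injective b)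
  (_ : ∃ D : (ResidueField W)[X], ∏ i, (X - C (residue W (psiV W (b i)))) = D ^ 2)
  (_ : ¬ ∀ x ∈ univ.image b, x + ((n / 2 : ℕ) : ZMod n) ∈ univ.image b),
    ∃ (Lam : Type) (_ : CommRing Lam) (_ : CharP Lam 2) (φ : W →+* Lam)
      (red : Lam →+* ResidueField W) (α : Lam) (S g : Lam[X]) (V : Finset (ResidueField W))
      (p : ResidueField W → ℕ) (Mi : Finset (ResidueField W)),
      Function.Surjective φ ∧ (∀ x, red (φ x) = residue W x) ∧
      (∀ x, α * x = 0 ↔ red x = 0) ∧ (∀ x, red x ≠ 0 → IsUnit x) ∧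
      FO red α h S g (∏ i, (X - C (φ (psiV W (b i))))) ∧
      (0 : ResidueField W) ∉ V ∧ (∀ v ∈ V, 1 ≤ p v) ∧ Mi ⊆ V ∧ Mi.Nonempty ∧
      S.map red = ∏ v ∈ V, (X - C (v ^ 2)) ^ (p v) ∧
      g.map red = ∑ ρ ∈ Mi, C ρ * ∏ v ∈ V, (X - C (v ^ 2)) ^ (pm p ρ v)

/-- **C5** (extraction): the two families of relations and the formulas give the input of the
end.  `V`, `p`, `Mi` as above, `H` the inverse of the reversed reduction as a series in `T²`. -/
def ST_CORE : Prop := ∀ (Lam K : Type) [CommRing Lam] [CharP Lam 2] [Field K] [CharP K 2]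
  [IsAlgClosed K] (red : Lam →+* K) (α : Lam) (h : ℕ) (_ : 2 ≤ h) (S g f : Lam[X])
  (_ : Function.Surjective red) (_ : ∀ x, α * x = 0 ↔ red x = 0)
  (_ : ∀ x, red x ≠ 0 → IsUnit x) (_ : FO red α h S g f) (V : Finset K) (p : K → ℕ)
  (Mi : Finset K) (_ : (0 : K) ∉ V) (_ : ∀ v ∈ V, 1 ≤ p v) (_ : Mi ⊆ V) (_ : Mi.Nonempty)
  (_ : S.map red = ∏ v ∈ V, (X - C (v ^ 2)) ^ (p v))
  (_ : g.map red = ∑ ρ ∈ Mi, C ρ * ∏ v ∈ V, (X - C (v ^ 2)) ^ (pm p ρ v)),
    ¬ (Rel f (h - 1) (u1 (2 * h) (h - 1))) ∧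
    (∀ jj, 3 ≤ jj → h - 1 + jj ≤ 2 * h →
      ¬ ((∀ z : Fin (2 * h), h - 1 ≤ (z : ℕ) → Rel f (h - 1 + jj) (u2 (2 * h) (h - 1) jj z)) ∧
        (∀ z : Fin (2 * h), h ≤ (z : ℕ) → Rel f (h + (jj - 1)) (u2 (2 * h) h (jj - 1) z))))

/-- **C7** (assembly): the input of `good_of_core`. -/
def ST_EVEN : Prop := ∀ (n : ℕ) [NeZero n] (A B : Finset (ZMod n)), A.card = B.card →
  Even A.card → 0 < A.card → ¬ IsCos A.card A → ¬ IsCos A.card B →
    Pool.Agent.Helper7.SN.Tr A B ∨ Pool.Agent.Helper7.SN.CosPair A B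

end Pool.Agent.Helper42.CYC
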