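import Pool.Agent.Helper42.CYC.CoreTools

/-!
# The extraction step: the relation at sizes `(h-1, h+1)`
-/

set_option autoImplicit false

namespace Pool.Agent.Helper42.CYC

open Finset Polynomial Pool.Agent.Helper10.CYC

/-! ### First order data over polynomial rings -/

section FOlem

variable {R K : Type} [CommRing R] [CommRing K] {red : R →+* K} {α : R} {h : ℕ} {S g f : R[X]}

lemma FO.ext [Nontrivial R] (H : FO red α h S g f) :
    FO (Polynomial.mapRingHom red) (C α) h (S.map C) (g.map C) (f.map C) where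
  sq := by rw [← C_mul, H.sq, C_0]
  kill := by
    intro x hx
    ext n
    rw [coeff_C_mul, coeff_zero]
    apply H.kill
    have h1 := congrArg (fun P => P.coeff n) hx
    simpa using h1
  monic := H.monic.map C
  deg := by rw [H.monic.natDegree_map, H.deg]
  degg := lt_of_le_of_lt degree_map_le H.degg
  eq := by
    rw [H.eq, Polynomial.map_add, Polynomial.map_mul, Polynomial.map_mul, Polynomial.map_C,
      Polynomial.map_X, Polynomial.map_expand, Polynomial.map_expand]

lemma FO.deg_tail [Nontrivial R] (H : FO red α h S g f) (hh : 1 ≤ h) :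
    (C α * X * Polynomial.expand R 2 g).degree < (Polynomial.expand R 2 S).degree := by
  have h1 : (Polynomial.expand R 2 S).degree = ((2 * h : ℕ) : WithBot ℕ) := by
    have h2 : (Polynomial.expand R 2 S).Monic := H.monic.expand (by norm_num)
    rw [degree_eq_natDegree h2.ne_zero, natDegree_expand, H.deg, mul_comm]
  rw [h1]
  by_cases hg : g = 0
  · rw [hg, map_zero, mul_zero, degree_zero]
    exact WithBot.bot_lt_coe _
  · have h3 : g.natDegree < h := by
      have := H.degg
      rw [degree_eq_natDegree hg] at this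
      exact_mod_cast this
    refine lt_of_le_of_lt degree_le_natDegree ?_
    have h4 : (C α * X * Polynomial.expand R 2 g).natDegree ≤ 1 + g.natDegree * 2 := by
      refine natDegree_mul_le.trans ?_
      rw [natDegree_expand]
      have h5 : (C α * X : R[X]).natDegree ≤ 1 := (natDegree_C_mul_le _ _).trans natDegree_X_le
      omega
    exact_mod_cast (by omega : (C α * X * Polynomial.expand R 2 g).natDegree < 2 * h)

lemma FO.f_monic [Nontrivial R] (H : FO red α h S g f) (hh : 1 ≤ h) : f.Monic := by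
  rw [H.eq]
  exact (H.monic.expand (by norm_num)).add_of_left (H.deg_tail hh)

lemma FO.f_natDegree [Nontrivial R] (H : FO red α h S g f) (hh : 1 ≤ h) :
    f.natDegree = 2 * h := by
  rw [H.eq, natDegree_add_eq_left_of_degree_lt (H.deg_tail hh), natDegree_expand, H.deg, mul_comm]

lemma FO.f_coeff_zero (H : FO red α h S g f) : f.coeff 0 = S.coeff 0 := by
  rw [H.eq, coeff_add, mul_assoc, coeff_C_mul, coeff_zero_eq_eval_zero (X * _), eval_mul, eval_X,
    zero_mul, mul_zero, add_zero, coeff_expand (by norm_num)]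
  simp

end FOlem

/-! ### Extraction of coefficients -/

section Extract

variable {K : Type} [Field K]

lemma extract_one [Infinite K] [CharP K 2] [DecidableEq K] (V : Finset K) (m : K → ℕ) (N : ℕ) :
    ∀ G : PowerSeries K,
    (∀ a : K → K, PowerSeries.coeff N (G * ∏ v ∈ V,
      (PowerSeries.C (a v) + PowerSeries.X) ^ m v) = 0) →
    ∀ j : K → ℕ, (∀ v ∈ V, Odd ((m v).choose (j v))) →
      PowerSeries.coeff N (G * PowerSeries.X ^ (∑ v ∈ V, (m v - j v))) = 0 := by
  induction V using Finset.induction_on with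
  | empty =>
    intro G h j _
    simpa using h (fun _ => 0)
  | insert v0 V hv0 ih =>
    intro G h j hj
    have h1 : ∀ a0 : K, PowerSeries.coeff N (G * (PowerSeries.C a0 + PowerSeries.X) ^ m v0 *
        PowerSeries.X ^ (∑ v ∈ V, (m v - j v))) = 0 := by
      intro a0
      refine ih (G * (PowerSeries.C a0 + PowerSeries.X) ^ m v0) (fun a => ?_) j
        (fun v hv => hj v (mem_insert_of_mem hv))
      have h2 := h (Function.update a v0 a0)
      rw [prod_insert hv0, Function.update_self] at h2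
      have h3 : ∏ v ∈ V, (PowerSeries.C (Function.update a v0 a0 v) + PowerSeries.X) ^ m v
          = ∏ v ∈ V, (PowerSeries.C (a v) + PowerSeries.X) ^ m v := by
        refine prod_congr rfl (fun v hv => ?_)
        have hne : v ≠ v0 := by
          rintro rfl
          exact hv0 hv
        rw [Function.update_of_ne hne]
      rw [h3] at h2
      rw [mul_assoc]
      exact h2
    set G' := G * PowerSeries.X ^ (∑ v ∈ V, (m v - j v)) with hG'
    set P : K[X] := ∑ t ∈ range (m v0 + 1), C (((m v0).choose t : K) *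
      PowerSeries.coeff N (G' * PowerSeries.X ^ (m v0 - t))) * X ^ t with hP
    have hP0 : P = 0 := by
      apply Polynomial.funext
      intro a0
      rw [eval_zero, hP, eval_finsetSum, ← h1 a0, add_pow, mul_sum, sum_mul, map_sum]
      refine sum_congr rfl (fun t _ => ?_)
      rw [eval_mul, eval_C, eval_pow, eval_X]
      have h3 : G * (PowerSeries.C a0 ^ t * PowerSeries.X ^ (m v0 - t) *
          (((m v0).choose t : ℕ) : PowerSeries K)) * PowerSeries.X ^ (∑ v ∈ V, (m v - j v))
          = PowerSeries.C (a0 ^ t * ((m v0).choose t : K)) *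
            (G' * PowerSeries.X ^ (m v0 - t)) := by
        rw [hG', map_mul, map_pow, map_natCast]
        ring
      rw [h3, PowerSeries.coeff_C_mul]
      ring
    have h4 := congrArg (fun Q => Q.coeff (j v0)) hP0
    simp only [hP, finsetSum_coeff, coeff_C_mul, coeff_X_pow, mul_ite, mul_one, mul_zero,
      coeff_zero] at h4
    rw [sum_ite_eq (range (m v0 + 1)) (j v0)] at h4
    have hodd := hj v0 (mem_insert_self _ _)
    have hle : j v0 ≤ m v0 := by
      by_contra hcon
      push Not at hcon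
      rw [Nat.choose_eq_zero_of_lt hcon] at hodd
      exact absurd hodd (by decide)
    rw [if_pos (mem_range.2 (by omega))] at h4
    have hne : (((m v0).choose (j v0) : ℕ) : K) ≠ 0 := by
      intro hz
      rw [CharP.cast_eq_zero_iff K 2] at hz
      exact (Nat.not_even_iff_odd.2 hodd) (even_iff_two_dvd.2 hz)
    have h5 := (mul_eq_zero.1 h4).resolve_left hne
    rw [sum_insert hv0, pow_add, ← h5, hG']
    congr 1
    ring

lemma scale [Infinite K] [DecidableEq K] (V : Finset K) (p : K → ℕ) (Mi : Finset K)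
    (h0 : (0 : K) ∉ V) (hp : ∀ v ∈ V, 1 ≤ p v) (hMi : Mi ⊆ V) (L : K[X] →ₗ[K] K)
    (h : ∀ a b : K → K,
      ∑ ρ ∈ Mi, ρ * L (∏ v ∈ V, (C (a v) + C (b v) * X) ^ pm p ρ v) = 0)
    (ρ0 : K) (hρ0 : ρ0 ∈ Mi) (a b : K → K) :
    L (∏ v ∈ V, (C (a v) + C (b v) * X) ^ pm p ρ0 v) = 0 := by
  obtain ⟨l, hl⟩ := Infinite.exists_notMem_finset ({0, 1} : Finset K)
  have hl0 : l ≠ 0 := fun hh => hl (by simp [hh])
  have hl1 : l ≠ 1 := fun hh => hl (by simp [hh])
  have hρV := hMi hρ0
  have key : ∀ ρ, ∏ v ∈ V, (C (Function.update a ρ0 (l * a ρ0) v)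
      + C (Function.update b ρ0 (l * b ρ0) v) * X) ^ pm p ρ v
      = l ^ (pm p ρ ρ0) • ∏ v ∈ V, (C (a v) + C (b v) * X) ^ pm p ρ v := by
    intro ρ
    rw [← mul_prod_erase _ _ hρV, ← mul_prod_erase V _ hρV, Function.update_self,
      Function.update_self]
    have h0 : ∏ v ∈ V.erase ρ0, (C (Function.update a ρ0 (l * a ρ0) v)
        + C (Function.update b ρ0 (l * b ρ0) v) * X) ^ pm p ρ v
        = ∏ v ∈ V.erase ρ0, (C (a v) + C (b v) * X) ^ pm p ρ v := by
      refine prod_congr rfl (fun v hv => ?_)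
      rw [Function.update_of_ne (ne_of_mem_erase hv), Function.update_of_ne (ne_of_mem_erase hv)]
    rw [h0]
    have h1 : (C (l * a ρ0) + C (l * b ρ0) * X : K[X]) = C l * (C (a ρ0) + C (b ρ0) * X) := by
      rw [C_mul, C_mul]; ring
    rw [h1, mul_pow, ← C_pow, smul_eq_C_mul]
    ring
  have h1 := h (Function.update a ρ0 (l * a ρ0)) (Function.update b ρ0 (l * b ρ0))
  have h2 := h a b
  simp_rw [key, map_smul, smul_eq_mul] at h1
  have h3 : ∑ ρ ∈ Mi, ρ * (l ^ (pm p ρ ρ0) * L (∏ v ∈ V, (C (a v) + C (b v) * X) ^ pm p ρ v))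
      - l ^ (p ρ0) * ∑ ρ ∈ Mi, ρ * L (∏ v ∈ V, (C (a v) + C (b v) * X) ^ pm p ρ v) = 0 := by
    rw [h1, h2, mul_zero, sub_zero]
  rw [mul_sum, ← sum_sub_distrib, ← add_sum_erase _ _ hρ0] at h3
  rw [sum_eq_zero (s := Mi.erase ρ0), add_zero] at h3
  · have h4 : pm p ρ0 ρ0 = p ρ0 - 1 := by simp [pm]
    rw [h4] at h3
    obtain ⟨t, ht⟩ : ∃ t, p ρ0 = t + 1 := ⟨p ρ0 - 1, by have := hp ρ0 hρV; omega⟩
    rw [ht, Nat.add_sub_cancel, pow_succ] at h3
    have h5 : ρ0 * l ^ t * (1 - l) * L (∏ v ∈ V, (C (a v) + C (b v) * X) ^ pm p ρ0 v) = 0 := by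
      linear_combination h3
    have h6 : ρ0 ≠ 0 := fun hh => h0 (hh ▸ hρV)
    rcases mul_eq_zero.1 h5 with h7 | h7
    · rcases mul_eq_zero.1 h7 with h8 | h8
      · exact absurd h8 (mul_ne_zero h6 (pow_ne_zero _ hl0))
      · exact absurd (sub_eq_zero.1 h8).symm hl1
    · exact h7
  · intro ρ hρ
    have h4 : pm p ρ ρ0 = p ρ0 := by
      simp [pm, (ne_of_mem_erase hρ).symm]
    rw [h4]
    ring

end Extract

/-! ### Common preparations -/

section Prep

variable {Lam K : Type} [CommRing Lam] [Field K] {red : Lam →+* K} {α : Lam} {h : ℕ}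
  {S g f : Lam[X]}

lemma exists_interp [DecidableEq K] (hsurj : Function.Surjective red) (V : Finset K)
    (x : K → K) (hx : ∀ u ∈ V, ∀ v ∈ V, x u = x v → u = v) (a : K → K) :
    ∃ A : Lam[X], ∀ v ∈ V, (A.map red).eval (x v) = a v := by
  have hinj : Set.InjOn x V := fun u hu v hv huv => hx u hu v hv huv
  obtain ⟨A, hA⟩ := Polynomial.map_surjective red hsurj (Lagrange.interpolate V x a)
  refine ⟨A, fun v hv => ?_⟩
  rw [hA]
  exact Lagrange.eval_interpolate_at_node a hinj hv

lemma exists_series (f : Lam[X]) (hf : f.Monic) :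
    ∃ H : PowerSeries Lam, H * (f.reverse : PowerSeries Lam) = 1 := by
  have h1 : PowerSeries.constantCoeff (f.reverse : PowerSeries Lam) = ((1 : Lamˣ) : Lam) := by
    rw [← PowerSeries.coeff_zero_eq_constantCoeff_apply, Polynomial.coeff_coe,
      coeff_zero_reverse, hf.leadingCoeff, Units.val_one]
  refine ⟨PowerSeries.invOfUnit (f.reverse : PowerSeries Lam) 1, ?_⟩
  rw [mul_comm]
  exact PowerSeries.mul_invOfUnit _ _ h1

end Prep

/-- The relation at sizes `(h-1, h+1)`. -/
theorem core_I (hC3 : ST_C3) (hE2 : ST_E2) {Lam K : Type} [CommRing Lam] [CharP Lam 2] [Field K]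
    [CharP K 2] [Infinite K] (red : Lam →+* K) (α : Lam) (h : ℕ) (hh : 2 ≤ h) (S g f : Lam[X])
    (hsurj : Function.Surjective red) (hal : ∀ x, α * x = 0 ↔ red x = 0)
    (hunit : ∀ x, red x ≠ 0 → IsUnit x) (hFO : FO red α h S g f) (V : Finset K) (p : K → ℕ)
    (Mi : Finset K) (h0 : (0 : K) ∉ V) (hp : ∀ v ∈ V, 1 ≤ p v) (hMi : Mi ⊆ V)
    (hS : S.map red = ∏ v ∈ V, (X - C (v ^ 2)) ^ (p v))
    (hg : g.map red = ∑ ρ ∈ Mi, C ρ * ∏ v ∈ V, (X - C (v ^ 2)) ^ (pm p ρ v))
    (jj : ℕ) (hjj : 3 ≤ jj) (hjh : h - 1 + jj ≤ 2 * h)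
    (hrel : ∀ z : Fin (2 * h), h - 1 ≤ (z : ℕ) → Rel f (h - 1 + jj) (u2 (2 * h) (h - 1) jj z))
    (G : PowerSeries K)
    (hG : G * ∏ v ∈ V, (1 - PowerSeries.C (v ^ 2) * PowerSeries.X) ^ (p v) = 1) :
    ∀ ρ ∈ Mi, ∀ j : K → ℕ, (∀ v ∈ V, Odd ((pm p ρ v).choose (j v))) →
      ∀ y, ∑ v ∈ V, j v + 1 = 2 * y → PowerSeries.coeff y G = 0 := by
  classical
  have hnt : Nontrivial Lam := CharP.nontrivial_of_char_ne_one (R := Lam) (v := 2) (by norm_num)
  have hfm := hFO.f_monic (by omega)
  have hfd := hFO.f_natDegree (by omega)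
  have hα : red α = 0 := (hal α).1 hFO.sq
  have hfr : f.map red = Polynomial.expand K 2 (∏ v ∈ V, (X - C (v ^ 2)) ^ p v) := by
    rw [hFO.eq, Polynomial.map_add, Polynomial.map_mul, Polynomial.map_mul, Polynomial.map_C, hα,
      C_0, zero_mul, zero_mul, add_zero, Polynomial.map_expand, hS]
  have hf0 : IsUnit (f.coeff 0) := by
    apply hunit
    rw [hFO.f_coeff_zero, ← coeff_map, hS, coeff_zero_eq_eval_zero, eval_prod]
    refine prod_ne_zero_iff.2 (fun v hv => ?_)
    have hv0 : v ≠ 0 := fun hz => h0 (hz ▸ hv)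
    simp [hv0]
  obtain ⟨H, hH⟩ := exists_series f hfm
  have hHG := series_eq red V p h f hfm hfd hfr H hH G hG
  -- the degree
  have hsum : ∑ v ∈ V, p v = h := by
    have h1 : (S.map red).natDegree = h := by rw [hFO.monic.natDegree_map, hFO.deg]
    rw [hS, natDegree_prod_of_monic _ _ (fun v _ => (monic_X_sub_C _).pow _)] at h1
    rw [← h1]
    refine sum_congr rfl (fun v _ => ?_)
    rw [(monic_X_sub_C _).natDegree_pow, natDegree_X_sub_C, mul_one]
  obtain ⟨w, hwV, hwc⟩ := exists_enum V p h hsum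
  have hchoose : ∀ ρ ∈ Mi, ∃ m : Fin h, w m = ρ := by
    intro ρ hρ
    have h1 := hwc ρ (hMi hρ)
    have h2 := hp ρ (hMi hρ)
    have h3 : 0 < (univ.filter (fun i => w i = ρ)).card := by omega
    obtain ⟨m, hm⟩ := card_pos.1 h3
    exact ⟨m, (mem_filter.1 hm).2⟩
  have hneh : Nonempty (Fin h) := ⟨⟨0, by omega⟩⟩
  choose! ix hix using hchoose
  have hixinj : ∀ ρ ∈ Mi, ∀ ρ' ∈ Mi, ix ρ = ix ρ' → ρ = ρ' := by
    intro ρ hρ ρ' hρ' heq
    rw [← hix ρ hρ, ← hix ρ' hρ', heq]
  set M : Finset (Fin h) := Mi.image ix with hM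
  have hsumM : ∀ {N : Type} [AddCommMonoid N] (F : Fin h → N), ∑ m ∈ M, F m
      = ∑ ρ ∈ Mi, F (ix ρ) := by
    intro N _ F
    rw [hM, sum_image (fun x hx y hy hxy => hixinj x hx y hy hxy)]
  -- the main relation for polynomials `a`, `b`
  set Lf : K[X] →ₗ[K] K :=
    { toFun := fun P => PowerSeries.coeff h (PowerSeries.map red H * (P : PowerSeries K))
      map_add' := fun P Q => by rw [Polynomial.coe_add, mul_add, map_add]
      map_smul' := fun c P => by
        rw [smul_eq_C_mul, Polynomial.coe_mul, Polynomial.coe_C]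
        have : PowerSeries.map red H * (PowerSeries.C c * (P : PowerSeries K))
            = PowerSeries.C c * (PowerSeries.map red H * (P : PowerSeries K)) := by ring
        rw [this, PowerSeries.coeff_C_mul]
        rfl } with hLf
  have hLfa : ∀ P, Lf P = PowerSeries.coeff h (PowerSeries.map red H * (P : PowerSeries K)) :=
    fun P => rfl
  have hmain : ∀ a b : K → K,
      ∑ ρ ∈ Mi, ρ * Lf (∏ v ∈ V, (C (a v) + C (b v) * X) ^ pm p ρ v) = 0 := by
    intro a b
    have hinj : ∀ u ∈ V, ∀ v ∈ V, u ^ 2 = v ^ 2 → u = v := by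
      intro u _ v _ huv
      have h1 : (u - v) ^ 2 = 0 := by rw [sub_pow_char, huv, sub_self]
      exact sub_eq_zero.1 (pow_eq_zero_iff (by norm_num) |>.1 h1)
    obtain ⟨A, hA⟩ := exists_interp hsurj V (fun v => v ^ 2) hinj a
    obtain ⟨B, hB⟩ := exists_interp hsurj V (fun v => v ^ 2) hinj b
    set G0 : Lam[X][X] := B.map C + C X * X * A.map C with hG0
    set G1 : Lam[X][X] := A.map C + C X * B.map C with hG1
    have hcol : colT (2 * h) (h - 1) (Polynomial.expand Lam 2 B + X * Polynomial.expand Lam 2 A) 1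
        = col0 (2 * h) (h - 1) (Polynomial.expand Lam[X] 2 G0 + X * Polynomial.expand Lam[X] 2 G1)
          1 := by
      funext j
      rw [colT, col0]
      by_cases hj : (j : ℕ) < h - 1
      · rw [if_pos hj, if_pos hj]
        congr 1
        rw [hG0, hG1]
        simp only [Polynomial.map_add, Polynomial.map_mul, Polynomial.map_X,
          Polynomial.map_expand, map_add, map_mul, Polynomial.expand_C, Polynomial.expand_X]
        ring
      · rw [if_neg hj, if_neg hj, Polynomial.map_one]
    have hrt : (S.map C).map (Polynomial.mapRingHom red)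
        = ∏ i, (X - C (C ((w i) ^ 2)) : K[X][X]) := by
      have h1 : (S.map C).map (Polynomial.mapRingHom red) = (S.map red).map C := by
        rw [Polynomial.map_map, Polynomial.map_map]
        congr 1
        ext x
        simp
      rw [h1, hS, Polynomial.map_prod,
        prod_enum V p h w hwV hwc (fun v => (X - C (C (v ^ 2)) : K[X][X]))]
      refine prod_congr rfl (fun v _ => ?_)
      rw [Polynomial.map_pow, Polynomial.map_sub, Polynomial.map_X, Polynomial.map_C]
    have hgt : (g.map C).map (Polynomial.mapRingHom red)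
        = ∑ m ∈ M, C (C (w m)) * ∏ i ∈ univ.erase m, (X - C (C ((w i) ^ 2)) : K[X][X]) := by
      have h1 : (g.map C).map (Polynomial.mapRingHom red) = (g.map red).map C := by
        rw [Polynomial.map_map, Polynomial.map_map]
        congr 1
        ext x
        simp
      rw [h1, hg, Polynomial.map_sum, hsumM]
      refine sum_congr rfl (fun ρ hρ => ?_)
      rw [prod_enum_erase V p h w hwV hwc (fun v => (X - C (C (v ^ 2)) : K[X][X])) (ix ρ),
        hix ρ hρ, Polynomial.map_mul, Polynomial.map_C, Polynomial.map_prod]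
      congr 1
      refine prod_congr rfl (fun v _ => ?_)
      rw [Polynomial.map_pow, Polynomial.map_sub, Polynomial.map_X, Polynomial.map_C]
    obtain ⟨x, hx1, hx2⟩ := hC3 Lam[X] K[X] (Polynomial.mapRingHom red) (C α) h (by omega)
      (S.map C) (g.map C) (f.map C) hFO.ext (Polynomial.map_surjective red hsurj)
      (fun i => C ((w i) ^ 2)) hrt M (fun m => C (w m)) hgt G0 G1
    have h1 := hE2 Lam (2 * h) (h - 1) jj (by omega) (by omega) hjh f hfm hfd hf0 hrel
      (Polynomial.expand Lam 2 B + X * Polynomial.expand Lam 2 A) 1 H hH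
    rw [hcol, hx1] at h1
    have h2 : h - 1 + 1 = h := by omega
    rw [h2, Polynomial.coe_mul, Polynomial.coe_C] at h1
    have h3 : H * (PowerSeries.C α * (x : PowerSeries Lam))
        = PowerSeries.C α * (H * (x : PowerSeries Lam)) := by ring
    rw [h3, PowerSeries.coeff_C_mul, hal] at h1
    rw [← PowerSeries.coeff_map, map_mul, ← Polynomial.polynomial_map_coe] at h1
    have h4 : x.map red = ∑ ρ ∈ Mi, C ρ * ∏ v ∈ V, (C (a v) + C (b v) * X) ^ pm p ρ v := by
      have h5 : x.map red = (Polynomial.mapRingHom red) x := rfl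
      rw [h5, hx2, hsumM]
      refine sum_congr rfl (fun ρ hρ => ?_)
      rw [hix ρ hρ]
      congr 1
      have h6 : ∀ i, eval (C ((w i) ^ 2)) (G1.map (Polynomial.mapRingHom red))
          = C (a (w i)) + C (b (w i)) * X := by
        intro i
        have h7 : G1.map (Polynomial.mapRingHom red)
            = (A.map red).map C + C X * (B.map red).map C := by
          rw [hG1, Polynomial.map_add, Polynomial.map_mul, Polynomial.map_C, Polynomial.map_map,
            Polynomial.map_map, Polynomial.map_map, Polynomial.map_map]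
          have h8 : (Polynomial.mapRingHom red).comp C = (C : K →+* K[X]).comp red := by
            ext x; simp
          rw [h8]
          simp
        rw [h7, eval_add, eval_mul, eval_C, eval_map, eval_map, Polynomial.eval₂_at_apply,
          Polynomial.eval₂_at_apply, hA _ (hwV i), hB _ (hwV i), mul_comm]
      rw [prod_congr rfl (fun i _ => h6 i)]
      rw [prod_enum_erase V p h w hwV hwc (fun v => (C (a v) + C (b v) * X : K[X])) (ix ρ),
        hix ρ hρ]
    rw [h4] at h1
    have h5 : Lf (∑ ρ ∈ Mi, C ρ * ∏ v ∈ V, (C (a v) + C (b v) * X) ^ pm p ρ v) = 0 := h1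
    rw [map_sum] at h5
    rw [← h5]
    refine sum_congr rfl (fun ρ _ => ?_)
    rw [← smul_eq_C_mul, map_smul, smul_eq_mul]
  intro ρ hρ j hj y hy
  have hsc := scale V p Mi h0 hp hMi Lf hmain ρ hρ
  have hρV := hMi hρ
  have h1 := extract_one V (pm p ρ) h (PowerSeries.map red H) (fun a => by
    have h2 := hsc a (fun _ => 1)
    rw [hLfa] at h2
    rw [← h2]
    congr 2
    have h3 := map_prod (Polynomial.coeToPowerSeries.ringHom (R := K))
      (fun v => (C (a v) + C 1 * X : K[X]) ^ (pm p ρ v)) V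
    simp only [Polynomial.coeToPowerSeries.ringHom_apply] at h3
    rw [h3]
    refine prod_congr rfl (fun v _ => ?_)
    have h6 := map_pow (Polynomial.coeToPowerSeries.ringHom (R := K))
      (C (a v) + C 1 * X : K[X]) (pm p ρ v)
    simp only [Polynomial.coeToPowerSeries.ringHom_apply] at h6
    rw [h6]
    congr 1
    rw [Polynomial.coe_add, Polynomial.coe_mul, Polynomial.coe_C, Polynomial.coe_C,
      Polynomial.coe_X, map_one, one_mul]) j hj
  have hle : ∀ v ∈ V, j v ≤ pm p ρ v := by
    intro v hv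
    by_contra hcon
    push Not at hcon
    have h2 := hj v hv
    rw [Nat.choose_eq_zero_of_lt hcon] at h2
    exact absurd h2 (by decide)
  have hsum2 : ∑ v ∈ V, (pm p ρ v - j v) + ∑ v ∈ V, j v = h - 1 := by
    rw [← sum_add_distrib, sum_congr rfl (fun v hv => Nat.sub_add_cancel (hle v hv))]
    rw [← add_sum_erase _ _ hρV, ← hsum, ← add_sum_erase V p hρV]
    have h2 : ∑ v ∈ V.erase ρ, pm p ρ v = ∑ v ∈ V.erase ρ, p v := by
      refine sum_congr rfl (fun v hv => ?_)
      simp [pm, ne_of_mem_erase hv]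
    have h3 : pm p ρ ρ = p ρ - 1 := by simp [pm]
    rw [h2, h3]
    have := hp ρ hρV
    omega
  have h2 : h = 2 * y + ∑ v ∈ V, (pm p ρ v - j v) := by omega
  rw [hHG] at h1
  rw [h2, PowerSeries.coeff_mul_X_pow, PowerSeries.coeff_expand_mul] at h1
  exact h1

end Pool.Agent.Helper42.CYC
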