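import Pool.Agent.Helper42.CYC.StmtsC

/-!
# Tools for the extraction step
-/

set_option autoImplicit false

namespace Pool.Agent.Helper42.CYC

open Finset Polynomial

/-! ### Enumeration of the roots with multiplicity -/

section Enum

variable {K : Type}

lemma exists_enum [DecidableEq K] (V : Finset K) (p : K → ℕ) (h : ℕ) (hh : ∑ v ∈ V, p v = h) :
    ∃ w : Fin h → K, (∀ i, w i ∈ V) ∧
      ∀ v ∈ V, (univ.filter (fun i => w i = v)).card = p v := by
  have hcard : Fintype.card ((v : V) × Fin (p v)) = h := by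
    rw [Fintype.card_sigma]
    simp only [Fintype.card_fin]
    rw [← hh, ← sum_coe_sort V p]
  let e := (Fintype.equivFinOfCardEq hcard).symm
  refine ⟨fun i => ((e i).1 : K), fun i => (e i).1.2, ?_⟩
  intro v hv
  rw [card_filter]
  have h1 : ∑ i : Fin h, (if (((e i).1 : V) : K) = v then 1 else 0)
      = ∑ x : (v : V) × Fin (p v), (if ((x.1 : V) : K) = v then 1 else 0) :=
    Equiv.sum_comp e (fun x : (v : V) × Fin (p v) => if ((x.1 : V) : K) = v then 1 else 0)
  rw [h1, Fintype.sum_sigma]
  have h2 : ∀ x : V, ∑ _t : Fin (p x), (if (x : K) = v then 1 else 0)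
      = if (x : K) = v then p (x : K) else 0 := by
    intro x
    rw [sum_const, card_univ, Fintype.card_fin, smul_eq_mul]
    split_ifs <;> simp
  rw [sum_congr rfl (fun x _ => h2 x)]
  rw [sum_coe_sort V (fun u => if u = v then p u else 0), sum_ite_eq' V v, if_pos hv]

lemma prod_enum [DecidableEq K] {N : Type*} [CommMonoid N] (V : Finset K) (p : K → ℕ) (h : ℕ)
    (w : Fin h → K) (hw : ∀ i, w i ∈ V)
    (hc : ∀ v ∈ V, (univ.filter (fun i => w i = v)).card = p v) (F : K → N) :
    ∏ i, F (w i) = ∏ v ∈ V, F v ^ p v := by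
  rw [← prod_fiberwise_of_maps_to (s := univ) (t := V) (g := w) (fun i _ => hw i)]
  refine prod_congr rfl (fun v hv => ?_)
  rw [prod_congr rfl (fun i hi => by rw [(mem_filter.1 hi).2]), prod_const, hc v hv]

lemma prod_enum_erase [DecidableEq K] {N : Type*} [CommMonoid N] (V : Finset K) (p : K → ℕ)
    (h : ℕ) (w : Fin h → K) (hw : ∀ i, w i ∈ V)
    (hc : ∀ v ∈ V, (univ.filter (fun i => w i = v)).card = p v) (F : K → N) (m : Fin h) :
    ∏ i ∈ univ.erase m, F (w i) = ∏ v ∈ V, F v ^ pm p (w m) v := by
  rw [← prod_fiberwise_of_maps_to (s := univ.erase m) (t := V) (g := w) (fun i _ => hw i)]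
  refine prod_congr rfl (fun v hv => ?_)
  rw [prod_congr rfl (fun i hi => by rw [(mem_filter.1 hi).2]), prod_const]
  congr 1
  rw [filter_erase, pm]
  by_cases hvm : v = w m
  · have hmem : m ∈ univ.filter (fun i => w i = v) := mem_filter.2 ⟨mem_univ _, hvm.symm⟩
    rw [if_pos hvm, card_erase_of_mem hmem, hc v hv]
  · rw [if_neg hvm, erase_eq_of_notMem, hc v hv, Nat.sub_zero]
    intro hmem
    exact hvm (mem_filter.1 hmem).2.symm

end Enum

/-! ### The series over the residue field -/

section Series

variable {K : Type} [Field K]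

lemma reverse_prod (V : Finset K) (p : K → ℕ) :
    (∏ v ∈ V, (X ^ 2 - C (v ^ 2)) ^ p v : K[X]).reverse
      = ∏ v ∈ V, (1 - C (v ^ 2) * X ^ 2) ^ p v := by
  classical
  have hpow : ∀ (P : K[X]) (n : ℕ), (P ^ n).reverse = P.reverse ^ n := by
    intro P n
    induction n with
    | zero =>
      rw [pow_zero, pow_zero]
      exact (by simpa using reverse_C (1 : K))
    | succ n ih => rw [pow_succ, reverse_mul_of_domain, ih, pow_succ]
  induction V using Finset.induction_on with
  | empty =>
    rw [prod_empty, prod_empty]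
    exact (by simpa using reverse_C (1 : K))
  | insert v V hv ih =>
    rw [prod_insert hv, prod_insert hv, reverse_mul_of_domain, hpow, ih]
    congr 2
    rw [reverse, natDegree_X_pow_sub_C, reflect_sub, reflect_monomial, reflect_C, revAt_le le_rfl]
    simp

/-- The inverse series over the residue field is a series in `T²`. -/
lemma series_eq {R : Type} [CommRing R] (red : R →+* K) (V : Finset K) (p : K → ℕ) (h : ℕ)
    (f : R[X]) (hf : f.Monic) (hd : f.natDegree = 2 * h)
    (hfr : f.map red = Polynomial.expand K 2 (∏ v ∈ V, (X - C (v ^ 2)) ^ p v))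
    (H : PowerSeries R) (hH : H * (f.reverse : PowerSeries R) = 1) (G : PowerSeries K)
    (hG : G * ∏ v ∈ V, (1 - PowerSeries.C (v ^ 2) * PowerSeries.X) ^ (p v) = 1) :
    PowerSeries.map red H = PowerSeries.expand 2 two_ne_zero G := by
  have h1 : (f.reverse.map red : K[X]) = ∏ v ∈ V, (1 - C (v ^ 2) * X ^ 2) ^ p v := by
    have h2 : f.reverse.map red = (f.map red).reverse := by
      rw [reverse, reverse, hf.natDegree_map, ← reflect_map]
    rw [h2, hfr, map_prod]
    rw [← reverse_prod]
    congr 1
    refine prod_congr rfl (fun v _ => ?_)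
    simp [Polynomial.expand_C]
  have h2 : PowerSeries.map red H * (∏ v ∈ V, (1 - PowerSeries.C (v ^ 2) * PowerSeries.X ^ 2) ^ p v)
      = 1 := by
    have h3 := congrArg (PowerSeries.map red) hH
    rw [map_mul, map_one] at h3
    refine Eq.trans ?_ h3
    congr 1
    have h4 : PowerSeries.map red (f.reverse : PowerSeries R)
        = ((f.reverse.map red : K[X]) : PowerSeries K) := by
      rw [Polynomial.polynomial_map_coe]
    rw [h4, h1]
    have h5 := map_prod (Polynomial.coeToPowerSeries.ringHom (R := K))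
      (fun v => (1 - C (v ^ 2) * X ^ 2 : K[X]) ^ (p v)) V
    simp only [Polynomial.coeToPowerSeries.ringHom_apply] at h5
    rw [h5]
    refine prod_congr rfl (fun v _ => ?_)
    have h6 := map_pow (Polynomial.coeToPowerSeries.ringHom (R := K))
      (1 - C (v ^ 2) * X ^ 2 : K[X]) (p v)
    simp only [Polynomial.coeToPowerSeries.ringHom_apply] at h6
    rw [h6]
    have h7 : ((1 - C (v ^ 2) * X ^ 2 : K[X]) : PowerSeries K)
        = 1 - PowerSeries.C (v ^ 2) * PowerSeries.X ^ 2 := by
      rw [Polynomial.coe_sub, Polynomial.coe_mul, Polynomial.coe_one, Polynomial.coe_C,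
        Polynomial.coe_pow, Polynomial.coe_X]
    rw [h7]
  have h3 : PowerSeries.expand 2 two_ne_zero G *
      (∏ v ∈ V, (1 - PowerSeries.C (v ^ 2) * PowerSeries.X ^ 2) ^ p v) = 1 := by
    have h4 := congrArg (PowerSeries.expand 2 two_ne_zero) hG
    rw [map_mul, map_one, map_prod] at h4
    refine Eq.trans ?_ h4
    congr 1
    refine prod_congr rfl (fun v _ => ?_)
    have h7 : PowerSeries.expand 2 two_ne_zero (1 - PowerSeries.C (v ^ 2) * PowerSeries.X)
        = 1 - PowerSeries.C (v ^ 2) * PowerSeries.X ^ 2 := by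
      rw [map_sub, map_mul, map_one, PowerSeries.expand_C, PowerSeries.expand_X]
    have h8 := map_pow (PowerSeries.expand (R := K) 2 two_ne_zero)
      (1 - PowerSeries.C (v ^ 2) * PowerSeries.X) (p v)
    rw [h8, h7]
  calc PowerSeries.map red H = PowerSeries.map red H * (PowerSeries.expand 2 two_ne_zero G *
      (∏ v ∈ V, (1 - PowerSeries.C (v ^ 2) * PowerSeries.X ^ 2) ^ p v)) := by rw [h3, mul_one]
    _ = (PowerSeries.map red H *
      (∏ v ∈ V, (1 - PowerSeries.C (v ^ 2) * PowerSeries.X ^ 2) ^ p v)) *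
        PowerSeries.expand 2 two_ne_zero G := by ring
    _ = PowerSeries.expand 2 two_ne_zero G := by rw [h2, one_mul]

end Series

end Pool.Agent.Helper42.CYC
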