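import Pool.Agent.Helper42.CYC.StmtsC

/-!
# The end of the even case: multiplicities and power sums in characteristic two
-/

set_option autoImplicit false

namespace Pool.Agent.Helper42.CYC

open Finset Polynomial

/-! ### Parity of binomial coefficients -/

section Lucas

lemma odd_choose_even_even (m j : ℕ) : Odd ((2 * m).choose (2 * j)) ↔ Odd (m.choose j) := by
  have h := Choose.choose_modEq_choose_mod_mul_choose_div_nat (n := 2 * m) (k := 2 * j) (p := 2)
  have h1 : 2 * m % 2 = 0 := by omega
  have h2 : 2 * j % 2 = 0 := by omega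
  have h3 : 2 * m / 2 = m := by omega
  have h4 : 2 * j / 2 = j := by omega
  rw [h1, h2, h3, h4, Nat.choose_self, one_mul] at h
  rw [Nat.odd_iff, Nat.odd_iff]
  rw [h]

lemma odd_choose_odd_odd (m j : ℕ) :
    Odd ((2 * m + 1).choose (2 * j + 1)) ↔ Odd (m.choose j) := by
  have h := Choose.choose_modEq_choose_mod_mul_choose_div_nat (n := 2 * m + 1) (k := 2 * j + 1)
    (p := 2)
  have h1 : (2 * m + 1) % 2 = 1 := by omega
  have h2 : (2 * j + 1) % 2 = 1 := by omega
  have h3 : (2 * m + 1) / 2 = m := by omega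
  have h4 : (2 * j + 1) / 2 = j := by omega
  rw [h1, h2, h3, h4, Nat.choose_self, one_mul] at h
  rw [Nat.odd_iff, Nat.odd_iff]
  rw [h]

lemma odd_choose_odd_even (m j : ℕ) :
    Odd ((2 * m + 1).choose (2 * j)) ↔ Odd (m.choose j) := by
  have h := Choose.choose_modEq_choose_mod_mul_choose_div_nat (n := 2 * m + 1) (k := 2 * j)
    (p := 2)
  have h1 : (2 * m + 1) % 2 = 1 := by omega
  have h2 : (2 * j) % 2 = 0 := by omega
  have h3 : (2 * m + 1) / 2 = m := by omega
  have h4 : (2 * j) / 2 = j := by omega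
  rw [h1, h2, h3, h4, Nat.choose_zero_right, one_mul] at h
  rw [Nat.odd_iff, Nat.odd_iff]
  rw [h]

lemma odd_choose_mul (a m j : ℕ) :
    Odd ((2 ^ a * m).choose (2 ^ a * j)) ↔ Odd (m.choose j) := by
  induction a with
  | zero => simp
  | succ a ih =>
    have h1 : 2 ^ (a + 1) * m = 2 * (2 ^ a * m) := by rw [pow_succ]; ring
    have h2 : 2 ^ (a + 1) * j = 2 * (2 ^ a * j) := by rw [pow_succ]; ring
    rw [h1, h2, odd_choose_even_even, ih]

lemma odd_choose_mul' (a m j : ℕ) :
    Odd ((2 ^ a * m + (2 ^ a - 1)).choose (2 ^ a * j + (2 ^ a - 1))) ↔ Odd (m.choose j) := by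
  induction a with
  | zero => simp
  | succ a ih =>
    have h0 : 0 < 2 ^ a := by positivity
    have h1 : 2 ^ (a + 1) * m + (2 ^ (a + 1) - 1) = 2 * (2 ^ a * m + (2 ^ a - 1)) + 1 := by
      rw [pow_succ]
      have : 2 ^ a * 2 * m = 2 * (2 ^ a * m) := by ring
      rw [this]
      omega
    have h2 : 2 ^ (a + 1) * j + (2 ^ (a + 1) - 1) = 2 * (2 ^ a * j + (2 ^ a - 1)) + 1 := by
      rw [pow_succ]
      have : 2 ^ a * 2 * j = 2 * (2 ^ a * j) := by ring
      rw [this]
      omega
    rw [h1, h2, odd_choose_odd_odd, ih]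

lemma odd_choose_low (b m t : ℕ) (ht : t < 2 ^ b) :
    Odd ((2 ^ b * m + (2 ^ b - 1)).choose t) := by
  induction b generalizing t with
  | zero =>
    have : t = 0 := by simpa using ht
    subst this
    simp
  | succ b ih =>
    have h0 : 0 < 2 ^ b := by positivity
    have h1 : 2 ^ (b + 1) * m + (2 ^ (b + 1) - 1) = 2 * (2 ^ b * m + (2 ^ b - 1)) + 1 := by
      rw [pow_succ]
      have : 2 ^ b * 2 * m = 2 * (2 ^ b * m) := by ring
      rw [this]
      omega
    rw [h1]
    rw [pow_succ] at ht
    rcases Nat.even_or_odd' t with ⟨t', rfl | rfl⟩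
    · rw [odd_choose_odd_even]
      exact ih t' (by omega)
    · rw [odd_choose_odd_odd]
      exact ih t' (by omega)

end Lucas

/-! ### Powers of power series in characteristic two -/

section Frob

variable {K : Type*} [CommRing K] [CharP K 2]

lemma coeff_sq_even (F : PowerSeries K) (n : ℕ) :
    PowerSeries.coeff (2 * n) (F ^ 2) = (PowerSeries.coeff n F) ^ 2 := by
  classical
  rw [pow_two, PowerSeries.coeff_mul]
  have hmem : (n, n) ∈ antidiagonal (2 * n) := by rw [HasAntidiagonal.mem_antidiagonal]; simp only; omega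
  rw [← Finset.add_sum_erase _ _ hmem, pow_two]
  simp only
  rw [add_eq_left]
  refine Finset.sum_involution (fun x _ => (x.2, x.1)) ?_ ?_ ?_ ?_
  · intro x _
    simp only
    rw [mul_comm]
    exact CharTwo.add_self_eq_zero _
  · intro x hx _ heq
    rw [mem_erase, HasAntidiagonal.mem_antidiagonal] at hx
    apply hx.1
    have h1 := congrArg Prod.fst heq
    simp only at h1
    ext <;> simp only <;> omega
  · intro x hx
    rw [mem_erase, HasAntidiagonal.mem_antidiagonal] at hx ⊢
    refine ⟨?_, by simp only; omega⟩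
    intro h
    apply hx.1
    have h1 := congrArg Prod.fst h
    have h2 := congrArg Prod.snd h
    simp only at h1 h2
    ext <;> simp only <;> omega
  · intro x _
    rfl

lemma coeff_sq_odd (F : PowerSeries K) (n : ℕ) :
    PowerSeries.coeff (2 * n + 1) (F ^ 2) = 0 := by
  classical
  rw [pow_two, PowerSeries.coeff_mul]
  refine Finset.sum_involution (fun x _ => (x.2, x.1)) ?_ ?_ ?_ ?_
  · intro x _
    simp only
    rw [mul_comm]
    exact CharTwo.add_self_eq_zero _
  · intro x hx _ heq
    rw [HasAntidiagonal.mem_antidiagonal] at hx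
    have h1 := congrArg Prod.fst heq
    simp only at h1
    omega
  · intro x hx
    rw [HasAntidiagonal.mem_antidiagonal] at hx ⊢
    simp only
    omega
  · intro x _
    rfl

lemma coeff_pow_two_pow (F : PowerSeries K) (a n : ℕ) :
    PowerSeries.coeff (2 ^ a * n) (F ^ (2 ^ a)) = (PowerSeries.coeff n F) ^ (2 ^ a) := by
  induction a with
  | zero => simp
  | succ a ih =>
    have h1 : 2 ^ (a + 1) * n = 2 * (2 ^ a * n) := by rw [pow_succ]; ring
    rw [h1, pow_succ, pow_mul, coeff_sq_even, ih, ← pow_mul]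

lemma coeff_pow_two_pow_ne (F : PowerSeries K) (a n : ℕ)
    (h : PowerSeries.coeff n (F ^ (2 ^ a)) ≠ 0) : 2 ^ a ∣ n := by
  induction a generalizing n with
  | zero => simp
  | succ a ih =>
    rw [pow_succ, pow_mul] at h
    rcases Nat.even_or_odd' n with ⟨t, rfl | rfl⟩
    · rw [coeff_sq_even] at h
      have h1 : PowerSeries.coeff t (F ^ 2 ^ a) ≠ 0 := by
        intro h2
        rw [h2] at h
        exact h (by simp)
      rw [pow_succ, mul_comm]
      exact Nat.mul_dvd_mul_left 2 (ih t h1)
    · rw [coeff_sq_odd] at h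
      exact absurd rfl h

end Frob

/-! ### Coins -/

section Coins

variable {K : Type*} [DecidableEq K]

lemma coins (V F : Finset K) (B : ℕ) (w : K → ℕ) (good : K → ℕ → Prop) (hFV : F ⊆ V)
    (hw : ∀ x ∈ F, w x ≤ B + 1) (hgood : ∀ x ∈ F, good x (w x))
    (base : ∀ N ≤ B, ∃ j : K → ℕ, (∀ v ∈ V, good v (j v)) ∧ (∀ x ∈ F, j x = 0) ∧
      ∑ v ∈ V, j v = N) :
    ∀ N ≤ B + ∑ x ∈ F, w x, ∃ j : K → ℕ, (∀ v ∈ V, good v (j v)) ∧ ∑ v ∈ V, j v = N := by
  have main : ∀ F0 : Finset K, F0 ⊆ F → ∀ N ≤ B + ∑ x ∈ F0, w x, ∃ j : K → ℕ,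
      (∀ v ∈ V, good v (j v)) ∧ (∀ x ∈ F, x ∉ F0 → j x = 0) ∧ ∑ v ∈ V, j v = N := by
    intro F0
    induction F0 using Finset.induction_on with
    | empty =>
      intro _ N hN
      obtain ⟨j, h1, h2, h3⟩ := base N (by simpa using hN)
      exact ⟨j, h1, fun x hx _ => h2 x hx, h3⟩
    | insert x F0 hx ih =>
      intro hsub N hN
      have hxF : x ∈ F := hsub (mem_insert_self _ _)
      have ih' := ih (fun y hy => hsub (mem_insert_of_mem hy))
      rw [sum_insert hx] at hN
      by_cases hN1 : N ≤ B + ∑ y ∈ F0, w y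
      · obtain ⟨j, h1, h2, h3⟩ := ih' N hN1
        exact ⟨j, h1, fun y hy hy' => h2 y hy (fun h => hy' (mem_insert_of_mem h)), h3⟩
      · have hwx := hw x hxF
        obtain ⟨j, h1, h2, h3⟩ := ih' (N - w x) (by omega)
        refine ⟨Function.update j x (w x), ?_, ?_, ?_⟩
        · intro v hv
          by_cases hvx : v = x
          · subst hvx
            rw [Function.update_self]
            exact hgood v hxF
          · rw [Function.update_of_ne hvx]
            exact h1 v hv
        · intro y hy hy'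
          have hyx : y ≠ x := fun h => hy' (h ▸ mem_insert_self _ _)
          rw [Function.update_of_ne hyx]
          exact h2 y hy (fun h => hy' (mem_insert_of_mem h))
        · have hxV := hFV hxF
          rw [← Finset.add_sum_erase V _ hxV, Function.update_self]
          rw [← Finset.add_sum_erase V _ hxV, h2 x hxF hx, zero_add] at h3
          have h4 : ∑ v ∈ V.erase x, Function.update j x (w x) v = ∑ v ∈ V.erase x, j v := by
            refine sum_congr rfl (fun v hv => ?_)
            rw [Function.update_of_ne (ne_of_mem_erase hv)]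
          rw [h4, h3]
          omega
  intro N hN
  obtain ⟨j, h1, _, h3⟩ := main F (Subset.refl F) N hN
  exact ⟨j, h1, h3⟩

end Coins

/-! ### Vandermonde -/

section Vand

variable {K : Type*} [Field K] [DecidableEq K]

lemma vand_zero (M : Finset K) (c x : K → K) (hx : ∀ u ∈ M, ∀ v ∈ M, x u = x v → u = v)
    (h : ∀ N < M.card, ∑ ρ ∈ M, c ρ * x ρ ^ N = 0) : ∀ ρ ∈ M, c ρ = 0 := by
  intro ρ hρ
  set P : K[X] := ∏ u ∈ M.erase ρ, (X - C (x u)) with hP
  have hdeg : P.natDegree < M.card := by
    rw [hP, natDegree_prod_of_monic _ _ (fun u _ => monic_X_sub_C (x u))]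
    simp only [natDegree_X_sub_C, sum_const, smul_eq_mul, mul_one]
    rw [card_erase_of_mem hρ]
    have := card_pos.2 ⟨ρ, hρ⟩
    omega
  have h1 : ∑ u ∈ M, c u * P.eval (x u) = 0 := by
    simp_rw [eval_eq_sum_range' hdeg, mul_sum]
    rw [sum_comm]
    refine sum_eq_zero (fun N hN => ?_)
    have h2 := h N (mem_range.1 hN)
    have h3 : ∑ u ∈ M, c u * (P.coeff N * x u ^ N) = P.coeff N * ∑ u ∈ M, c u * x u ^ N := by
      rw [mul_sum]
      exact sum_congr rfl (fun u _ => by ring)
    rw [h3, h2, mul_zero]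
  have h2 : ∀ u ∈ M, u ≠ ρ → P.eval (x u) = 0 := by
    intro u hu hne
    rw [hP, eval_prod]
    refine prod_eq_zero (mem_erase.2 ⟨hne, hu⟩) ?_
    simp
  rw [← add_sum_erase _ _ hρ] at h1
  rw [sum_eq_zero (fun u hu => by
    rw [h2 u (mem_of_mem_erase hu) (ne_of_mem_erase hu), mul_zero]), add_zero] at h1
  rcases mul_eq_zero.1 h1 with h3 | h3
  · exact h3
  · exfalso
    rw [hP, eval_prod, prod_eq_zero_iff] at h3
    obtain ⟨u, hu, h4⟩ := h3
    rw [eval_sub, eval_X, eval_C, sub_eq_zero] at h4
    exact ne_of_mem_erase hu (hx u (mem_of_mem_erase hu) ρ hρ h4.symm)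

end Vand

/-! ### The derivative argument -/

section Der

variable {K : Type*} [Field K] [CharP K 2] [DecidableEq K]

lemma der_ne_zero (O : Finset K) (h0 : (0 : K) ∉ O) (hO : O.Nonempty) :
    derivative (∏ v ∈ O, (1 - C (v ^ 2) * X) : K[X]) ≠ 0 := by
  obtain ⟨v0, hv0⟩ := hO
  have hv0' : v0 ≠ 0 := fun h => h0 (h ▸ hv0)
  intro h
  have h1 := congrArg (fun P : K[X] => P.eval (v0 ^ 2)⁻¹) h
  simp only [eval_zero] at h1
  rw [derivative_prod_finset, eval_finsetSum] at h1
  rw [← add_sum_erase _ _ hv0] at h1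
  rw [sum_eq_zero (s := O.erase v0), add_zero] at h1
  · rw [eval_mul, eval_prod] at h1
    rcases mul_eq_zero.1 h1 with h2 | h2
    · rw [prod_eq_zero_iff] at h2
      obtain ⟨u, hu, h3⟩ := h2
      simp only [eval_sub, eval_one, eval_mul, eval_C, eval_X] at h3
      have h4 : u ^ 2 = v0 ^ 2 := by
        field_simp at h3
        rw [mul_zero, sub_eq_zero] at h3
        exact h3.symm
      have h5 : (u - v0) ^ 2 = 0 := by
        rw [sub_pow_char, h4, sub_self]
      exact ne_of_mem_erase hu (sub_eq_zero.1 (pow_eq_zero_iff (by norm_num) |>.1 h5))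
    · simp only [derivative_sub, derivative_one, zero_sub, derivative_mul, derivative_C,
        zero_mul, derivative_X, mul_one, zero_add, eval_neg, eval_C, neg_eq_zero] at h2
      exact hv0' (pow_eq_zero_iff (by norm_num) |>.1 h2)
  · intro v hv
    rw [eval_mul, eval_prod]
    refine mul_eq_zero_of_left (prod_eq_zero (mem_erase.2 ⟨(ne_of_mem_erase hv).symm, hv0⟩) ?_) _
    simp only [eval_sub, eval_one, eval_mul, eval_C, eval_X]
    rw [mul_inv_cancel₀ (pow_ne_zero 2 hv0'), sub_self]

omit [CharP K 2] [DecidableEq K] in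
lemma natDegree_prod_one_sub (O : Finset K) :
    (∏ v ∈ O, (1 - C (v ^ 2) * X) : K[X]).natDegree ≤ O.card := by
  refine (natDegree_prod_le _ _).trans ?_
  have h : ∀ v ∈ O, (1 - C (v ^ 2) * X : K[X]).natDegree ≤ 1 := by
    intro v _
    refine (natDegree_sub_le _ _).trans ?_
    rw [natDegree_one, max_le_iff]
    exact ⟨by omega, (natDegree_C_mul_le _ _).trans natDegree_X_le⟩
  calc ∑ v ∈ O, (1 - C (v ^ 2) * X : K[X]).natDegree ≤ ∑ v ∈ O, 1 := sum_le_sum h
    _ = O.card := by simp

lemma no_gap (V : Finset K) (p : K → ℕ) (h0 : (0 : K) ∉ V) (H : PowerSeries K)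
    (hH : H * ∏ v ∈ V, (1 - PowerSeries.C (v ^ 2) * PowerSeries.X) ^ (p v) = 1)
    (hO : (V.filter (fun v => Odd (p v))).Nonempty)
    (hc : ∀ y, 0 < y → y ≤ (V.filter (fun v => Odd (p v))).card → PowerSeries.coeff y H = 0) :
    False := by
  set O := V.filter (fun v => Odd (p v)) with hOdef
  set o := O.card with ho
  set F : K[X] := ∏ v ∈ V, (1 - C (v ^ 2) * X) ^ (p v) with hF
  have hFH : H * (F : PowerSeries K) = 1 := by
    rw [← hH, hF]
    congr 1
    have : ((∏ v ∈ V, (1 - C (v ^ 2) * X) ^ (p v) : K[X]) : PowerSeries K)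
        = ∏ v ∈ V, (((1 - C (v ^ 2) * X : K[X]) : PowerSeries K)) ^ (p v) := by
      have h1 := map_prod (Polynomial.coeToPowerSeries.ringHom (R := K))
        (fun v => (1 - C (v ^ 2) * X : K[X]) ^ (p v)) V
      simp only [Polynomial.coeToPowerSeries.ringHom_apply] at h1
      rw [h1]
      refine prod_congr rfl (fun v _ => ?_)
      have h2 := map_pow (Polynomial.coeToPowerSeries.ringHom (R := K))
        (1 - C (v ^ 2) * X : K[X]) (p v)
      simp only [Polynomial.coeToPowerSeries.ringHom_apply] at h2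
      exact h2
    rw [this]
    refine prod_congr rfl (fun v _ => ?_)
    congr 1
    rw [Polynomial.coe_sub, Polynomial.coe_mul, Polynomial.coe_one, Polynomial.coe_C,
      Polynomial.coe_X]
  have hH0 : PowerSeries.coeff 0 H = 1 := by
    have h1 := congrArg (PowerSeries.coeff 0) hFH
    rw [PowerSeries.coeff_mul, HasAntidiagonal.antidiagonal_zero, sum_singleton] at h1
    simp only [Polynomial.coeff_coe, PowerSeries.coeff_zero_one] at h1
    have h2 : F.coeff 0 = 1 := by
      rw [hF, coeff_zero_eq_eval_zero, eval_prod]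
      refine prod_eq_one (fun v _ => ?_)
      simp
    rw [h2, mul_one] at h1
    exact h1
  have hFc : ∀ y, 0 < y → y ≤ o → F.coeff y = 0 := by
    intro y hy hyo
    have h1 := congrArg (PowerSeries.coeff y) hFH
    rw [PowerSeries.coeff_mul, PowerSeries.coeff_one, if_neg hy.ne'] at h1
    have hmem : (0, y) ∈ HasAntidiagonal.antidiagonal y := by
      rw [HasAntidiagonal.mem_antidiagonal]; simp
    rw [← add_sum_erase _ _ hmem, sum_eq_zero (s := (HasAntidiagonal.antidiagonal y).erase _),
      add_zero] at h1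
    · simp only [hH0, one_mul, Polynomial.coeff_coe] at h1
      exact h1
    · intro x hx
      rw [mem_erase, HasAntidiagonal.mem_antidiagonal] at hx
      have hx1 : 0 < x.1 := by
        rcases Nat.eq_zero_or_pos x.1 with h | h
        · exfalso
          apply hx.1
          ext <;> simp only <;> omega
        · exact h
      rw [hc x.1 hx1 (by omega), zero_mul]
  have hder : (X : K[X]) ^ o ∣ derivative F := by
    rw [X_pow_dvd_iff]
    intro d hd
    rw [coeff_derivative, hFc (d + 1) (by omega) (by omega), zero_mul]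
  set Q : K[X] := ∏ v ∈ O, (1 - C (v ^ 2) * X) with hQ
  set W : K[X] := ∏ v ∈ V, (1 - C (v ^ 2) * X) ^ (p v / 2) with hW
  have hFQW : F = Q * W ^ 2 := by
    rw [hF, hQ, hW, hOdef, prod_filter, ← prod_pow, ← prod_mul_distrib]
    refine prod_congr rfl (fun v _ => ?_)
    by_cases hv : Odd (p v)
    · rw [if_pos hv, ← pow_mul, ← pow_succ']
      congr 1
      obtain ⟨t, ht⟩ := hv
      omega
    · rw [if_neg hv, one_mul, ← pow_mul]
      congr 1
      rw [Nat.not_odd_iff_even] at hv
      obtain ⟨t, ht⟩ := hv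
      omega
  have hder2 : derivative F = derivative Q * W ^ 2 := by
    rw [hFQW, derivative_mul, derivative_pow]
    have h2 : (C ((2 : ℕ) : K) : K[X]) = 0 := by
      rw [CharP.cast_eq_zero K 2, C_0]
    rw [h2, zero_mul, zero_mul, mul_zero, add_zero]
  have hXW : ¬ (X : K[X]) ∣ W ^ 2 := by
    intro h
    rw [X_dvd_iff, coeff_zero_eq_eval_zero, eval_pow, hW, eval_prod] at h
    rw [prod_eq_one (fun v _ => by simp)] at h
    simp at h
  rw [hder2] at hder
  have hdvd := Polynomial.prime_X.pow_dvd_of_dvd_mul_right o hXW hder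
  have hO0 : (0 : K) ∉ O := fun h => h0 (mem_of_mem_filter _ h)
  have hne := der_ne_zero O hO0 hO
  have h1 := natDegree_le_of_dvd hdvd hne
  rw [natDegree_X_pow] at h1
  have h2 : Q.natDegree ≤ O.card := natDegree_prod_one_sub O
  have h3 := natDegree_derivative_lt (p := Q) (by
    intro h4
    apply hne
    exact derivative_of_natDegree_zero h4)
  omega

end Der

/-! ### The end -/

section Main

variable {K : Type}

lemma pm_self (p : K → ℕ) (ρ : K) : pm p ρ ρ = p ρ - 1 := by simp [pm]

lemma pm_ne (p : K → ℕ) (ρ v : K) (h : v ≠ ρ) : pm p ρ v = p v := by simp [pm, h]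

lemma exists_two_pow (V : Finset K) (hV : V.Nonempty) (p : K → ℕ) (hp : ∀ v ∈ V, 1 ≤ p v) :
    ∃ (a : ℕ) (p' : K → ℕ), (∀ v ∈ V, p v = 2 ^ a * p' v) ∧ (∀ v ∈ V, 1 ≤ p' v) ∧
      ∃ v ∈ V, Odd (p' v) := by
  induction hn : ∑ v ∈ V, p v using Nat.strong_induction_on generalizing p with
  | _ n ih =>
    by_cases hodd : ∃ v ∈ V, Odd (p v)
    · exact ⟨0, p, fun v _ => by simp, hp, hodd⟩
    · push Not at hodd
      have h1 : ∀ v ∈ V, p v = 2 * (p v / 2) := by
        intro v hv
        have := hodd v hv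
        rw [Nat.not_odd_iff_even] at this
        obtain ⟨t, ht⟩ := this
        omega
      have h2 : ∀ v ∈ V, 1 ≤ p v / 2 := by
        intro v hv
        have := h1 v hv
        have := hp v hv
        omega
      have hlt : ∑ v ∈ V, p v / 2 < n := by
        rw [← hn]
        refine sum_lt_sum_of_nonempty hV (fun v hv => ?_)
        have := h1 v hv
        have := hp v hv
        omega
      obtain ⟨a, p', ha, hb, hc⟩ := ih _ hlt (fun v => p v / 2) h2 rfl
      refine ⟨a + 1, p', ?_, hb, hc⟩
      intro v hv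
      rw [h1 v hv]
      have := ha v hv
      rw [this, pow_succ]
      ring

lemma sum_ind [DecidableEq K] (V T : Finset K) (hT : T ⊆ V) :
    ∑ v ∈ V, (if v ∈ T then 1 else 0) = T.card := by
  rw [sum_ite_mem, inter_eq_right.2 hT, sum_const, smul_eq_mul, mul_one]

theorem st_end : ST_END := by
  classical
  intro K _ _ V p Mi h0 hp hMi hne H hH hI hII
  have hVne : V.Nonempty := hne.mono hMi
  obtain ⟨a, p', hpa, hp', v1, hv1, hv1o⟩ := exists_two_pow V hVne p hp
  set q := 2 ^ a with hq
  have hq0 : 0 < q := by positivity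
  -- the reduced series
  set F' : PowerSeries K := ∏ v ∈ V, (1 - PowerSeries.C (v ^ 2) * PowerSeries.X) ^ (p' v) with hF'
  have hF'c : PowerSeries.constantCoeff F' ≠ 0 := by
    rw [hF', map_prod]
    refine prod_ne_zero_iff.2 (fun v _ => ?_)
    simp
  set H' : PowerSeries K := F'⁻¹ with hH'
  have hHF' : H' * F' = 1 := by
    rw [mul_comm]
    exact PowerSeries.mul_inv_cancel F' hF'c
  have hFq : ∏ v ∈ V, (1 - PowerSeries.C (v ^ 2) * PowerSeries.X) ^ (p v) = F' ^ q := by
    rw [hF', ← prod_pow]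
    refine prod_congr rfl (fun v hv => ?_)
    rw [← pow_mul, hpa v hv, mul_comm q]
  have hHq : H = H' ^ q := by
    rw [hFq] at hH
    have h1 : H' ^ q * F' ^ q = 1 := by rw [← mul_pow, hHF', one_pow]
    calc H = H * (H' ^ q * F' ^ q) := by rw [h1, mul_one]
      _ = (H * F' ^ q) * H' ^ q := by ring
      _ = H' ^ q := by rw [hH, one_mul]
  have hHc : ∀ y, PowerSeries.coeff (q * y) H = (PowerSeries.coeff y H') ^ q := by
    intro y
    rw [hHq, hq, coeff_pow_two_pow]
  have hHn : ∀ y, PowerSeries.coeff y H ≠ 0 → q ∣ y := by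
    intro y hy
    rw [hHq, hq] at hy
    exact coeff_pow_two_pow_ne H' a y hy
  have hH0 : PowerSeries.coeff 0 H = 1 := by
    have h1 := congrArg PowerSeries.constantCoeff hH
    rw [map_mul, map_prod, prod_eq_one (fun v _ => by simp), mul_one, map_one] at h1
    rw [PowerSeries.coeff_zero_eq_constantCoeff_apply]
    exact h1
  -- (I'')
  have hI' : ∀ ρ ∈ Mi, ∀ j : K → ℕ, (∀ v ∈ V, Odd ((pm p' ρ v).choose (j v))) →
      ∀ y, ∑ v ∈ V, j v + 1 = 2 * y → PowerSeries.coeff y H' = 0 := by
    intro ρ hρ j hj y hy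
    have hρV := hMi hρ
    have h1 := hI ρ hρ (fun v => q * j v + if v = ρ then q - 1 else 0) ?_ (q * y) ?_
    · rw [hHc] at h1
      exact pow_eq_zero_iff hq0.ne' |>.1 h1
    · intro v hv
      by_cases hvρ : v = ρ
      · subst hvρ
        rw [if_pos rfl, pm_self, hpa v hv]
        have h2 := hj v hv
        rw [pm_self] at h2
        have h3 : q * p' v - 1 = q * (p' v - 1) + (q - 1) := by
          have := hp' v hv
          obtain ⟨t, ht⟩ : ∃ t, p' v = t + 1 := ⟨p' v - 1, by omega⟩
          rw [ht, Nat.add_sub_cancel, mul_add, mul_one]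
          omega
        rw [h3, hq, odd_choose_mul']
        exact h2
      · rw [if_neg hvρ, add_zero, pm_ne _ _ _ hvρ, hpa v hv, hq, odd_choose_mul]
        have h2 := hj v hv
        rwa [pm_ne _ _ _ hvρ] at h2
    · rw [sum_add_distrib, ← mul_sum, sum_ite_eq' V ρ, if_pos hρV]
      have h4 : q * ∑ v ∈ V, j v + (q - 1) + 1 = q * (∑ v ∈ V, j v + 1) := by
        rw [mul_add, mul_one]
        omega
      rw [h4, hy]
      ring
  -- (II'')
  have hII' : ∀ (N : ℕ) (j : K → ℕ), (∀ v ∈ V, Odd ((p' v).choose (j v))) → ∑ v ∈ V, j v = N →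
      Even (q * N) → (∀ y, 0 < y → 2 * y ≤ N → PowerSeries.coeff y H' = 0) →
      ∑ ρ ∈ Mi, ρ ^ (q * N + 1) = 0 := by
    intro N j hj hjN hev hc
    obtain ⟨y0, hy0⟩ := hev
    have h1 := hII (fun v => q * j v) ?_ y0 ?_
    · have hmem : (0, y0) ∈ HasAntidiagonal.antidiagonal y0 := by
        rw [HasAntidiagonal.mem_antidiagonal]; simp
      rw [← add_sum_erase _ _ hmem, sum_eq_zero (s := (HasAntidiagonal.antidiagonal y0).erase _),
        add_zero] at h1
      · simp only [hH0, one_mul] at h1
        rw [hy0, ← two_mul]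
        exact h1
      · intro x hx
        rw [mem_erase, HasAntidiagonal.mem_antidiagonal] at hx
        have hx1 : 0 < x.1 := by
          rcases Nat.eq_zero_or_pos x.1 with h | h
          · exfalso
            apply hx.1
            ext <;> simp only <;> omega
          · exact h
        have h2 : PowerSeries.coeff x.1 H = 0 := by
          by_contra hcon
          obtain ⟨y', hy'⟩ := hHn _ hcon
          rw [hy', hHc] at hcon
          apply hcon
          have hy'0 : 0 < y' := by
            rcases Nat.eq_zero_or_pos y' with h | h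
            · rw [h, mul_zero] at hy'; omega
            · exact h
          have h3 : 2 * y' ≤ N := by
            have h4 : q * (2 * y') ≤ q * N := by
              have h5 : q * (2 * y') = 2 * (q * y') := by ring
              rw [h5, ← hy', hy0]
              omega
            exact Nat.le_of_mul_le_mul_left h4 hq0
          rw [hc y' hy'0 h3, zero_pow hq0.ne']
        rw [h2, zero_mul]
    · intro v hv
      rw [hpa v hv, hq, odd_choose_mul]
      exact hj v hv
    · rw [← mul_sum, hjN, hy0]
      ring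
  -- the two kinds of roots
  set O := V.filter (fun v => Odd (p' v)) with hO
  set E := Mi.filter (fun v => ¬ Odd (p' v)) with hE
  have hOV : O ⊆ V := filter_subset _ _
  have hEM : E ⊆ Mi := filter_subset _ _
  have hEO : ∀ v ∈ E, v ∉ O := by
    intro v hv hv'
    exact (mem_filter.1 hv).2 (mem_filter.1 hv').2
  have hbu : ∀ v ∈ V, ∃ b u, Odd u ∧ p' v = 2 ^ b * u := by
    intro v hv
    obtain ⟨b, u, hu, h1⟩ := Nat.exists_eq_two_pow_mul_odd (n := p' v)
      (by have := hp' v hv; omega)
    exact ⟨b, u, hu, h1⟩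
  choose! b u hu hbu using hbu
  set o := O.card with ho
  set L := o + ∑ v ∈ E, 2 ^ b v with hL
  have hOne : O.Nonempty := ⟨v1, mem_filter.2 ⟨hv1, hv1o⟩⟩
  have hgoodE : ∀ x ∈ E, Odd ((p' x).choose (2 ^ b x)) := by
    intro x hx
    have hxV := hMi (hEM hx)
    have h1 := odd_choose_mul (b x) (u x) 1
    rw [mul_one, Nat.choose_one_right] at h1
    rw [hbu x hxV]
    exact h1.2 (hu x hxV)
  -- (a)
  have ha : ∀ y, 0 < y → 2 * y ≤ L → PowerSeries.coeff y H' = 0 := by
    intro y hy0 hyL
    by_cases hEe : E = ∅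
    · obtain ⟨ρ0, hρ0⟩ := hne
      have hρO : ρ0 ∈ O := by
        rw [hO, mem_filter]
        refine ⟨hMi hρ0, ?_⟩
        by_contra hcon
        have : ρ0 ∈ E := mem_filter.2 ⟨hρ0, hcon⟩
        rw [hEe] at this
        exact absurd this (notMem_empty _)
      rw [hL, hEe, sum_empty, add_zero] at hyL
      obtain ⟨T, hT, hTc⟩ := exists_subset_card_eq (s := O.erase ρ0) (n := 2 * y - 1) (by
        rw [card_erase_of_mem hρO]; omega)
      refine hI' ρ0 hρ0 (fun v => if v ∈ T then 1 else 0) ?_ y ?_
      · intro v hv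
        by_cases hvT : v ∈ T
        · rw [if_pos hvT]
          have h1 := mem_erase.1 (hT hvT)
          rw [pm_ne _ _ _ h1.1, Nat.choose_one_right]
          exact (mem_filter.1 h1.2).2
        · rw [if_neg hvT, Nat.choose_zero_right]
          exact odd_one
      · rw [sum_ind V T (hT.trans ((erase_subset _ _).trans hOV)), hTc]
        omega
    · obtain ⟨ρ0, hρ0, hmax⟩ := exists_max_image E b (nonempty_iff_ne_empty.2 hEe)
      have hρM := hEM hρ0
      have hρV := hMi hρM
      have h2b : 0 < 2 ^ b ρ0 := by positivity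
      have key := coins V (E.erase ρ0) ((2 ^ b ρ0 - 1) + o) (fun v => 2 ^ b v)
        (fun v t => Odd ((pm p' ρ0 v).choose t)) ((erase_subset _ _).trans (hEM.trans hMi))
        (fun x hx => ?_) (fun x hx => ?_) (fun N hN => ?_) (2 * y - 1) ?_
      · obtain ⟨j, hj1, hj2⟩ := key
        exact hI' ρ0 hρM j hj1 y (by omega)
      · have := hmax x (mem_of_mem_erase hx)
        have h3 : 2 ^ b x ≤ 2 ^ b ρ0 := Nat.pow_le_pow_right (by norm_num) this
        omega
      · rw [pm_ne _ _ _ (ne_of_mem_erase hx)]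
        exact hgoodE x (mem_of_mem_erase hx)
      · obtain ⟨T, hT, hTc⟩ := exists_subset_card_eq (s := O) (n := N - min N (2 ^ b ρ0 - 1)) (by
          omega)
        have hρT : ρ0 ∉ T := fun h => hEO ρ0 hρ0 (hT h)
        refine ⟨fun v => (if v ∈ T then 1 else 0) + if v = ρ0 then min N (2 ^ b ρ0 - 1) else 0,
          ?_, ?_, ?_⟩
        · intro v hv
          simp only
          by_cases hvρ : v = ρ0
          · subst hvρ
            rw [if_neg hρT, if_pos rfl, zero_add, pm_self, hbu v hv]
            have h3 : 2 ^ b v * u v - 1 = 2 ^ b v * (u v - 1) + (2 ^ b v - 1) := by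
              obtain ⟨t, ht⟩ := hu v hv
              rw [ht, Nat.add_sub_cancel, mul_add, mul_one]
              omega
            rw [h3]
            exact odd_choose_low _ _ _ (by omega)
          · rw [if_neg hvρ, add_zero, pm_ne _ _ _ hvρ]
            by_cases hvT : v ∈ T
            · rw [if_pos hvT, Nat.choose_one_right]
              exact (mem_filter.1 (hT hvT)).2
            · rw [if_neg hvT, Nat.choose_zero_right]
              exact odd_one
        · intro x hx
          have h1 := mem_erase.1 hx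
          simp only
          rw [if_neg h1.1, if_neg (fun h => hEO x h1.2 (hT h))]
        · rw [sum_add_distrib, sum_ind V T (hT.trans hOV), sum_ite_eq' V ρ0, if_pos hρV, hTc]
          omega
      · have h3 : ∑ v ∈ E, 2 ^ b v = 2 ^ b ρ0 + ∑ v ∈ E.erase ρ0, 2 ^ b v :=
          (add_sum_erase _ _ hρ0).symm
        rw [hL, h3] at hyL
        omega
  -- (b)
  have hb : ∀ x ∈ E, 2 ^ b x ≤ o + 1 := by
    intro x hx
    by_contra hcon
    push Not at hcon
    have h1 : 2 ^ b x ≤ ∑ v ∈ E, 2 ^ b v := single_le_sum (f := fun v => 2 ^ b v)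
      (fun _ _ => Nat.zero_le _) hx
    refine no_gap V p' h0 H' hHF' hOne (fun y hy1 hy2 => ha y hy1 ?_)
    have hy3 : y ≤ o := hy2
    omega
  -- (c)
  have hc : ∀ N ≤ L, Even (q * N) → ∑ ρ ∈ Mi, ρ ^ (q * N + 1) = 0 := by
    intro N hN hev
    obtain ⟨j, hj1, hj2⟩ := coins V E o (fun v => 2 ^ b v)
      (fun v t => Odd ((p' v).choose t)) (hEM.trans hMi) hb hgoodE (fun N hN => by
        obtain ⟨T, hT, hTc⟩ := exists_subset_card_eq (s := O) (n := N) hN
        refine ⟨fun v => if v ∈ T then 1 else 0, ?_, ?_, ?_⟩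
        · intro v hv
          simp only
          by_cases hvT : v ∈ T
          · rw [if_pos hvT, Nat.choose_one_right]
            exact (mem_filter.1 (hT hvT)).2
          · rw [if_neg hvT, Nat.choose_zero_right]
            exact odd_one
        · intro x hx
          simp only
          rw [if_neg (fun h => hEO x hx (hT h))]
        · rw [sum_ind V T (hT.trans hOV), hTc]) N hN
    exact hII' N j hj1 hj2 hev (fun y hy1 hy2 => ha y hy1 (by omega))
  -- the cardinality
  have hcard : Mi.card ≤ L := by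
    have h1 : Mi.card = (Mi.filter (fun v => Odd (p' v))).card + E.card := by
      rw [hE, card_filter_add_card_filter_not]
    have h2 : (Mi.filter (fun v => Odd (p' v))).card ≤ o := by
      rw [ho, hO]
      exact card_le_card (filter_subset_filter _ hMi)
    have h3 : E.card ≤ ∑ v ∈ E, 2 ^ b v := by
      rw [card_eq_sum_ones]
      exact sum_le_sum (fun v _ => Nat.one_le_two_pow)
    omega
  obtain ⟨ρ1, hρ1⟩ := hne
  have hρ1' : ρ1 ≠ 0 := fun h => h0 (h ▸ hMi hρ1)
  apply hρ1'
  by_cases haz : a = 0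
  · have hq1 : q = 1 := by rw [hq, haz, pow_zero]
    have hpow : ∀ m, 1 ≤ m → m ≤ L + 1 → ∑ ρ ∈ Mi, ρ ^ m = 0 := by
      intro m
      induction m using Nat.strong_induction_on with
      | _ m ih =>
        intro hm1 hm2
        rcases Nat.even_or_odd' m with ⟨t, rfl | rfl⟩
        · have h1 := ih t (by omega) (by omega) (by omega)
          have h2 : ∑ ρ ∈ Mi, ρ ^ (2 * t) = (∑ ρ ∈ Mi, ρ ^ t) ^ 2 := by
            rw [sum_pow_char]
            exact sum_congr rfl (fun ρ _ => by rw [← pow_mul, mul_comm])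
          rw [h2, h1]
          simp
        · have h1 := hc (2 * t) (by omega) (by rw [hq1, one_mul]; exact even_two_mul t)
          rw [hq1, one_mul] at h1
          exact h1
    refine vand_zero Mi (fun ρ => ρ) (fun ρ => ρ) (fun _ _ _ _ h => h) (fun N hN => ?_) ρ1 hρ1
    rw [← hpow (N + 1) (by omega) (by omega)]
    exact sum_congr rfl (fun ρ _ => by rw [pow_succ']) 
  · refine vand_zero Mi (fun ρ => ρ) (fun ρ => ρ ^ q) ?_ (fun N hN => ?_) ρ1 hρ1
    · intro x _ y _ hxy
      have h1 : (x - y) ^ q = 0 := by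
        rw [hq, sub_pow_char_pow, ← hq]
        rw [hxy, sub_self]
      exact sub_eq_zero.1 (pow_eq_zero_iff hq0.ne' |>.1 h1)
    · have hev : Even (q * N) := by
        obtain ⟨a', rfl⟩ : ∃ a', a = a' + 1 := ⟨a - 1, by omega⟩
        rw [hq, pow_succ]
        exact ⟨2 ^ a' * N, by ring⟩
      rw [← hc N (by omega) hev]
      exact sum_congr rfl (fun ρ _ => by rw [← pow_mul, pow_succ'])

end Main

end Pool.Agent.Helper42.CYC
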